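import Pool.Agent.Lead.Nae
import Pool.Agent.H11.PS1

set_option autoImplicit false

namespace Pool.Agent.Results.MP_a08d7f_lc.Hard
open Pool.Agent.H11.PT Pool.Agent.Lead.Nae List

/-- number of vertices, list of edges, list of paths (as vertex sequences) -/
abbrev Inst := ℕ × List (ℕ × ℕ) × List (List ℕ)

/-- the ends of `p` are `u` and `v` -/
def Joins (p : List ℕ) (u v : ℕ) : Prop :=
  (p.head? = some u ∧ p.getLast? = some v) ∨ (p.head? = some v ∧ p.getLast? = some u)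

/-- a simple path with two distinct ends -/
def IsPath (y : Inst) (p : List ℕ) : Prop :=
  2 ≤ p.length ∧ p.Nodup ∧ (∀ x ∈ p, x < y.1) ∧ p.IsChain fun a b => (a, b) ∈ y.2.1 ∨ (b, a) ∈ y.2.1

/-- a simple graph with a consistent path system -/
def Valid (y : Inst) : Prop :=
  (∀ e ∈ y.2.1, e.1 < e.2 ∧ e.2 < y.1) ∧ (∀ p ∈ y.2.2, IsPath y p) ∧
    (∀ u < y.1, ∀ v < y.1, u ≠ v → ∃! p, p ∈ y.2.2 ∧ Joins p u v) ∧
      ∀ p ∈ y.2.2, ∀ q, q <:+: p → 2 ≤ q.length → q ∈ y.2.2 ∨ q.reverse ∈ y.2.2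

/-- the path system has a reduction -/
def HasRed (y : Inst) : Prop :=
  ∃ A : ℕ → Bool, (∃ u < y.1, A u = true) ∧ (∃ u < y.1, A u = false) ∧
    ∀ p ∈ y.2.2, ∀ u v, Joins p u v → A u = A v → ∀ w ∈ p, A w = A u

abbrev Tr := ℕ × ℕ × ℕ

def Same (t : Tr) (u v : ℕ) : Prop := t.1 = u ∧ t.2.1 = v ∨ t.1 = v ∧ t.2.1 = u
def prs (n : ℕ) : List (ℕ × ℕ) := (range n ×ˢ range n).filter fun e => decide (e.1 < e.2)
def mk (y : ℕ × List Tr) : Inst := (y.1, prs y.1, y.2.map (fun t => [t.1, t.2.2, t.2.1]) ++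
  ((prs y.1).filter fun e => y.2.all fun t =>
    decide (¬ (t.1 = e.1 ∧ t.2.1 = e.2 ∨ t.1 = e.2 ∧ t.2.1 = e.1))).map fun e => [e.1, e.2])
def Good (n : ℕ) (T : List Tr) : Prop := ∀ t ∈ T, (t.1 < n ∧ t.2.1 < n ∧ t.2.2 < n ∧ t.1 ≠ t.2.1 ∧
  t.2.2 ≠ t.1 ∧ t.2.2 ≠ t.2.1) ∧ ∀ s ∈ T, (Same s t.1 t.2.1 → s = t) ∧ ¬ Same s t.1 t.2.2 ∧
    ¬ Same s t.2.2 t.2.1

theorem mk_pt : PT mk := by unfold mk prs; fun_prop

theorem mprs {n u v : ℕ} : (u, v) ∈ prs n ↔ u < v ∧ v < n := by simp [prs]; omega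

theorem mmk {n : ℕ} {T : List Tr} {p : List ℕ} : p ∈ (mk (n, T)).2.2 ↔
    (∃ t ∈ T, [t.1, t.2.2, t.2.1] = p) ∨
      ∃ u v, (u < v ∧ v < n) ∧ (∀ t ∈ T, ¬ Same t u v) ∧ [u, v] = p := by
  simp only [mk, mem_append, mem_map, mem_filter, Prod.exists, mprs, all_eq_true, decide_eq_true_eq,
    Same, and_assoc]

theorem valid {n : ℕ} {T : List Tr} (h : Good n T) : Valid (mk (n, T)) := by
  have sh : ∀ a b, a < n → b < n → a ≠ b → (∀ t ∈ T, ¬ Same t a b) →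
      [a, b] ∈ (mk (n, T)).2.2 ∨ [a, b].reverse ∈ (mk (n, T)).2.2 := fun a b x y z w => by
    rcases lt_or_gt_of_ne z with k | k
    · exact .inl (mmk.2 (.inr ⟨a, b, ⟨k, y⟩, w, rfl⟩))
    · exact .inr (mmk.2 (.inr ⟨b, a, ⟨k, x⟩, fun t m c => w t m (Or.symm c), rfl⟩))
  refine ⟨fun e m => mprs.1 m, fun p m => ?_, fun u a v b c => ?_, fun p m q i l => ?_⟩
  · obtain ⟨t, a, rfl⟩ | ⟨u, v, a, -, rfl⟩ := mmk.1 m
    · have := (h t a).1
      simp [IsPath, mk, mprs]; omega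
    · simp [IsPath, mk, mprs]; omega
  · by_cases k : ∃ t ∈ T, Same t u v
    · obtain ⟨t, d, e⟩ := k
      refine ⟨_, ⟨mmk.2 (.inl ⟨t, d, rfl⟩), by simpa [Joins, Same] using e⟩, fun p ⟨m, j⟩ => ?_⟩
      obtain ⟨s, a, rfl⟩ | ⟨x, y, a, f, rfl⟩ := mmk.1 m
      · rw [((h t d).2 s a).1 (by simp [Joins, Same] at *; omega)]
      · exact absurd (by simp [Joins, Same] at *; omega) (f t d)
    · push Not at k
      refine ⟨[min u v, max u v], ⟨mmk.2 (.inr ⟨_, _, ⟨by omega, by simp [mk] at a b; omega⟩,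
        fun t m d => k t m (by unfold Same at *; omega), rfl⟩), by simp [Joins]; omega⟩,
        fun p ⟨m, j⟩ => ?_⟩
      obtain ⟨s, a, rfl⟩ | ⟨x, y, a, f, rfl⟩ := mmk.1 m
      · exact absurd (by simpa [Joins, Same] using j) (k s a)
      · simp [Joins] at j ⊢; omega
  · obtain _ | ⟨x, _ | ⟨y, q⟩⟩ := q <;> try simp at l
    obtain ⟨t, a, rfl⟩ | ⟨u, v, a, -, rfl⟩ := mmk.1 m
    · have := (h t a).1
      simp [infix_cons_iff, prefix_cons_iff] at i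
      obtain ⟨rfl, rfl, rfl | rfl⟩ | ⟨rfl, rfl, rfl⟩ := i
      · exact sh _ _ (by omega) (by omega) (by omega) fun s m => ((h t a).2 s m).2.1
      · exact .inl m
      · exact sh _ _ (by omega) (by omega) (by omega) fun s m => ((h t a).2 s m).2.2
    · simp [infix_cons_iff] at i
      obtain ⟨rfl, rfl, rfl⟩ := i
      exact .inl m

theorem red_iff {n : ℕ} {T : List Tr} : HasRed (mk (n, T)) ↔ ∃ A : ℕ → Bool, (∃ u < n, A u = true) ∧
    (∃ u < n, A u = false) ∧ ∀ t ∈ T, A t.1 = A t.2.1 → A t.2.2 = A t.1 := by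
  refine exists_congr fun A => and_congr_right fun _ => and_congr_right fun _ =>
    ⟨fun h t m e => h _ (mmk.2 (.inl ⟨t, m, rfl⟩)) _ _ (by simp [Joins]) e _ (by simp),
      fun h p m u v j e w a => ?_⟩
  obtain ⟨t, b, rfl⟩ | ⟨x, y, -, -, rfl⟩ := mmk.1 m
  · have := h t b
    simp [Joins] at j a
    obtain ⟨rfl, rfl⟩ | ⟨rfl, rfl⟩ := j <;> obtain rfl | rfl | rfl := a <;> simp_all
  · simp [Joins] at j a
    obtain ⟨rfl, rfl⟩ | ⟨rfl, rfl⟩ := j <;> obtain rfl | rfl := a <;> simp_all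

def L : List Tr := [(0, 4, 2), (0, 5, 8), (0, 7, 6), (2, 3, 0), (2, 6, 5), (2, 8, 7), (3, 6, 4),
  (4, 7, 2), (5, 7, 3), (1, 2, 9), (1, 3, 10), (1, 4, 11), (1, 5, 12), (9, 10, 12), (11, 12, 0)]

instance (t : Tr) (u v : ℕ) : Decidable (Same t u v) := by unfold Same; infer_instance

theorem goodL : Good 13 L := by unfold Good; decide

theorem bL : ∀ t ∈ L, 2 ≤ t.2.1 ∧ (t.1 = 1 → t.2.1 < 9) ∧ t.2.2 ≠ 1 := by decide

abbrev F := List (ℕ × ℕ × ℕ)

def cd (c s : ℕ) : ℕ := if s < 2 then s else 11 * c + s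
def var (φ : F) (i p : ℕ) : ℕ :=
  [(φ.getD i (0, 0, 0)).1, (φ.getD i (0, 0, 0)).2.1, (φ.getD i (0, 0, 0)).2.2].getD p 0
def tr (φ : F) : List Tr :=
  ((range (2 * φ.length)).flatMap fun c => L.map fun t => (cd c t.1, cd c t.2.1, cd c t.2.2)) ++
  (((range φ.length ×ˢ range 3) ×ˢ (range φ.length ×ˢ range 3)).filter fun z =>
    decide (var φ z.1.1 z.1.2 = var φ z.2.1 z.2.2)).map fun z =>
      (22 * z.1.1 + 9 + z.1.2, 22 * z.2.1 + 20 + z.2.2, 1)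
def red (φ : F) : Inst := mk (22 * φ.length + 2, tr φ)

theorem red_pt : PT red := mk_pt.comp (by unfold tr var cd; fun_prop)

variable {φ : F}

theorem mtr {s : Tr} : s ∈ tr φ ↔
    (∃ c < 2 * φ.length, ∃ t ∈ L, (cd c t.1, cd c t.2.1, cd c t.2.2) = s) ∨
      ∃ i < φ.length, ∃ p < 3, ∃ j < φ.length, ∃ q < 3, var φ i p = var φ j q ∧
        (22 * i + 9 + p, 22 * j + 20 + q, 1) = s := by
  simp only [tr, mem_append, mem_flatMap, mem_map, mem_range, mem_filter, decide_eq_true_eq]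
  refine or_congr_right ⟨?_, fun ⟨i, a, p, b, j, c, q, d, e, f⟩ =>
    ⟨((i, p), j, q), ⟨by simp [*], e⟩, f⟩⟩
  rintro ⟨⟨⟨i, p⟩, j, q⟩, ⟨a, e⟩, f⟩
  simp at a
  exact ⟨i, a.1.1, p, a.1.2, j, a.2.1, q, a.2.2, e, f⟩

theorem cdi {c d : ℕ} {s : Tr} {u v : ℕ} (a : s.1 < 13) (b : s.2.1 < 13) (e : u < 13) (f : v < 13)
    (g : 2 ≤ s.2.1) (h : Same (cd d s.1, cd d s.2.1, cd d s.2.2) (cd c u) (cd c v)) :
    Same s u v ∧ c = d := by
  simp only [Same, cd] at *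
  split_ifs at h <;> omega

theorem good : Good (22 * φ.length + 2) (tr φ) := fun t m => by
  obtain ⟨c, a, t, b, rfl⟩ | ⟨i, a, p, b, j, c, q, d, -, rfl⟩ := mtr.1 m
  · obtain ⟨g, g'⟩ := goodL t b
    have o := bL t b
    refine ⟨by simp only [cd]; split_ifs <;> omega, fun s m => ?_⟩
    obtain ⟨d, -, s, e, rfl⟩ | ⟨i, a, p, b, j, c, q, d, -, rfl⟩ := mtr.1 m
    · have k := (goodL s e).1
      have l := (bL s e).1
      have := g' s e
      refine ⟨fun h => ?_, fun h => this.2.1 (cdi k.1 k.2.1 g.1 g.2.2.1 l h).1,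
        fun h => this.2.2 (cdi k.1 k.2.1 g.2.2.1 g.2.1 l h).1⟩
      obtain ⟨h', rfl⟩ := cdi k.1 k.2.1 g.1 g.2.1 l h
      rw [this.1 h']
    · simp only [Same, cd, Prod.mk.injEq]
      split_ifs <;> omega
  · refine ⟨by simp only; omega, fun s m => ?_⟩
    obtain ⟨d, -, s, e, rfl⟩ | ⟨i, a, p, b, j, c, q, d, -, rfl⟩ := mtr.1 m
    · have k := (goodL s e).1
      have l := bL s e
      simp only [Same, cd, Prod.mk.injEq]
      split_ifs <;> omega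
    · simp only [Same, Prod.mk.injEq, and_true]
      omega

theorem core8 (a0 a2 a3 a4 a5 a6 a7 a8 : Bool) : (a0 = a4 → a2 = a0) → (a0 = a5 → a8 = a0) →
    (a0 = a7 → a6 = a0) → (a2 = a3 → a0 = a2) → (a2 = a6 → a5 = a2) → (a2 = a8 → a7 = a2) →
    (a3 = a6 → a4 = a3) → (a4 = a7 → a2 = a4) → (a5 = a7 → a3 = a5) →
    a2 = a0 ∧ a3 = a0 ∧ a4 = a0 ∧ a5 = a0 ∧ a6 = a0 ∧ a7 = a0 ∧ a8 = a0 := by
  cases a0 <;> cases a2 <;> cases a3 <;> cases a4 <;> cases a5 <;> cases a6 <;> cases a7 <;>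
    cases a8 <;> simp

theorem core (a0 a1 a2 a3 a4 a5 a6 a7 a8 a9 a10 a11 a12 : Bool) : (a0 = a4 → a2 = a0) → (a0 = a5 → a8 = a0) →
    (a0 = a7 → a6 = a0) → (a2 = a3 → a0 = a2) → (a2 = a6 → a5 = a2) → (a2 = a8 → a7 = a2) →
    (a3 = a6 → a4 = a3) → (a4 = a7 → a2 = a4) → (a5 = a7 → a3 = a5) → (a1 = a2 → a9 = a1) →
    (a1 = a3 → a10 = a1) → (a1 = a4 → a11 = a1) → (a1 = a5 → a12 = a1) → (a9 = a10 → a12 = a9) →
    (a11 = a12 → a0 = a11) → (a0 = a1 → a2 = a0 ∧ a3 = a0 ∧ a4 = a0 ∧ a5 = a0 ∧ a6 = a0 ∧ a7 = a0 ∧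
      a8 = a0 ∧ a9 = a0 ∧ a10 = a0 ∧ a11 = a0 ∧ a12 = a0) ∧ (a9 = a0 ∨ a10 = a0 ∨ a11 = a0) := by
  intro h1 h2 h3 h4 h5 h6 h7 h8 h9
  obtain ⟨rfl, rfl, rfl, rfl, rfl, rfl, rfl⟩ := core8 _ _ _ _ _ _ _ _ h1 h2 h3 h4 h5 h6 h7 h8 h9
  clear h1 h2 h3 h4 h5 h6 h7 h8 h9
  cases a8 <;> cases a1 <;> cases a9 <;> cases a10 <;> cases a11 <;> cases a12 <;> simp

theorem nae_iff (σ : ℕ → Bool) : (∀ c ∈ φ, ¬ (σ c.1 = σ c.2.1 ∧ σ c.2.1 = σ c.2.2)) ↔
    ∀ i < φ.length, ¬ (σ (var φ i 0) = σ (var φ i 1) ∧ σ (var φ i 1) = σ (var φ i 2)) := by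
  rw [forall_mem_iff_getElem]
  exact forall_congr' fun i => forall_congr' fun b => by simp [var, b]

theorem sound (h : HasRed (red φ)) : NAE φ := by
  obtain ⟨A, ⟨u, u1, u2⟩, ⟨v, v1, v2⟩, h⟩ := red_iff.1 h
  have k : ∀ c < 2 * φ.length, (A 0 = A 1 → ∀ s < 13, 2 ≤ s → A (11 * c + s) = A 0) ∧
      ∃ p < 3, A (11 * c + 9 + p) = A 0 := fun c a => by
    have : ∀ t ∈ L, A (cd c t.1) = A (cd c t.2.1) → A (cd c t.2.2) = A (cd c t.1) := fun t m =>
      h _ (mtr.2 (.inl ⟨c, a, t, m, rfl⟩))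
    simp only [L, forall_mem_cons, cd, not_mem_nil, Nat.reduceLT, if_true, if_false] at this
    obtain ⟨h1, h2, h3, h4, h5, h6, h7, h8, h9, h10, h11, h12, h13, h14, h15, -⟩ := this
    obtain ⟨x, y⟩ := core _ _ _ _ _ _ _ _ _ _ _ _ _ h1 h2 h3 h4 h5 h6 h7 h8 h9 h10 h11 h12 h13 h14 h15
    refine ⟨fun e s b d => ?_, ?_⟩
    · have := x e
      interval_cases s <;> simp only [this]
    · obtain y | y | y := y
      exacts [⟨0, by omega, y⟩, ⟨1, by omega, y⟩, ⟨2, by omega, y⟩]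
  have ne : A 0 ≠ A 1 := fun e => by
    have : ∀ w < 22 * φ.length + 2, A w = A 0 := fun w a => by
      by_cases b : w < 2
      · interval_cases w <;> simp [e]
      · have := (k ((w - 2) / 11) (by omega)).1 e ((w - 2) % 11 + 2) (by omega) (by omega)
        rwa [show 11 * ((w - 2) / 11) + ((w - 2) % 11 + 2) = w by omega] at this
    exact absurd ((u2.symm.trans (this u u1)).trans (v2.symm.trans (this v v1)).symm) (by simp)
  obtain ⟨σ, hσ⟩ : ∃ σ : ℕ → Bool, ∀ x, σ x = true ↔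
      ∃ i < φ.length, ∃ p < 3, var φ i p = x ∧ A (22 * i + 9 + p) = A 0 := by
    classical exact ⟨fun x => decide _, fun x => decide_eq_true_iff⟩
  refine ⟨σ, (nae_iff _).2 fun i a => ?_⟩
  obtain ⟨p, b, c⟩ := (k (2 * i) (by omega)).2
  obtain ⟨q, d, e⟩ := (k (2 * i + 1) (by omega)).2
  have s1 : σ (var φ i p) = true := (hσ _).2 ⟨i, a, p, b, rfl, by rw [← c]; congr 1; omega⟩
  have s2 : σ (var φ i q) = false := by
    refine Bool.eq_false_iff.2 fun z => ne ?_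
    obtain ⟨j, f, r, g, l, o⟩ := (hσ _).1 z
    have := h _ (mtr.2 (.inr ⟨j, f, r, g, i, a, q, d, l, rfl⟩))
    rw [show 11 * (2 * i + 1) + 9 + q = 22 * i + 20 + q by omega] at e
    simp only [o, e] at this
    exact (this trivial).symm
  clear hσ k h c e
  rintro ⟨x, y⟩
  interval_cases p <;> interval_cases q <;> simp_all

theorem complete (h : NAE φ) : HasRed (red φ) := by
  obtain ⟨σ, h⟩ := h
  rw [nae_iff] at h
  let o : ℕ → ℕ → Bool := fun c p => σ (var φ (c / 2) p) == (c % 2 == 0)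
  let B : ℕ → ℕ → Bool := fun c s => if s = 1 then false else if s < 9 then true else
    if s < 12 then o c (s - 9) else o c 0 || o c 1
  let A : ℕ → Bool := fun w => if w < 2 then B 0 w else B ((w - 2) / 11) ((w - 2) % 11 + 2)
  have e : ∀ c, ∀ s < 13, A (cd c s) = B c s := fun c s a => by
    simp only [A, cd]
    split_ifs with b d
    · simp only [B]; split_ifs <;> first | rfl | omega
    · omega
    · congr 1 <;> omega
  refine red_iff.2 ⟨A, ⟨0, by omega, rfl⟩, ⟨1, by omega, rfl⟩, fun t m => ?_⟩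
  obtain ⟨c, a, t, b, rfl⟩ | ⟨i, a, p, b, j, c, q, d, f, rfl⟩ := mtr.1 m
  · have g := (goodL t b).1
    simp only [e c _ g.1, e c _ g.2.1, e c _ g.2.2.1]
    have := h (c / 2) (by omega)
    clear g m
    revert t
    simp only [L, forall_mem_cons, B, o, Nat.reduceLT, Nat.reduceEqDiff, Nat.reduceSub, if_true,
      if_false]
    generalize σ (var φ (c / 2) 0) = x at *
    generalize σ (var φ (c / 2) 1) = y at *
    generalize σ (var φ (c / 2) 2) = z at *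
    generalize (c % 2 == 0) = w
    revert this
    cases x <;> cases y <;> cases z <;> cases w <;> simp
  · have x := e (2 * i) (9 + p) (by omega)
    have y := e (2 * j + 1) (9 + q) (by omega)
    simp only [cd, B, o] at x y
    rw [if_neg (by omega), if_neg (by omega), if_neg (by omega), if_pos (by omega)] at x y
    rw [show 11 * (2 * i) + (9 + p) = 22 * i + 9 + p by omega, show 2 * i / 2 = i by omega] at x
    rw [show 11 * (2 * j + 1) + (9 + q) = 22 * j + 20 + q by omega, show (2 * j + 1) / 2 = j by omega,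
      show (2 * j + 1) % 2 = 1 by omega] at y
    simp [x, y, f]

theorem result : NPHard fun y => Valid y ∧ HasRed y :=
  (hard_NAE.hardFor.red red red_pt fun _ _ => ⟨valid good, complete, sound⟩).npHard

end Pool.Agent.Results.MP_a08d7f_lc.Hard
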